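import Pool.Agent.Helper72.Width.Lattice
import Pool.Agent.Helper10.Width.Final

/-!
# Assembly: superdecomposable pure-injective modules from wide subposets
-/

universe u

namespace Pool.Agent.Helper72.Width

open Set Pool.Agent.Helper10.Width

theorem isWide_of {L : Type*} [Lattice L] {P : Set L} (h : Pool.Agent.Helper10.Width.IsWide P) :
    Pool.Agent.Helper72.Width.IsWide0 P := by
  refine ⟨h.1, fun φ hφ ψ hψ hlt => ?_⟩
  obtain ⟨θ₁, h₁, θ₂, h₂, i1, i2, a1, a2, a3, a4, ⟨⟨θ₁₁, h11, b2, b1⟩, θ₁₂, h12, b3, b4⟩,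
    ⟨⟨θ₂₁, h21, c2, c1⟩, θ₂₂, h22, c3, c4⟩⟩ := h.2 φ hφ ψ hψ hlt
  exact ⟨θ₁, h₁, θ₂, h₂, a1, a2, a3, a4, i1, i2, ⟨θ₁₁, h11, θ₁₂, h12, b1, b2, b3, b4⟩,
    ⟨θ₂₁, h21, θ₂₂, h22, by rwa [sup_comm], c2, c3, by rwa [inf_comm]⟩⟩

section lattice

variable {L : Type*} [Lattice L] [IsModularLattice L]

/-- A scheme in an interval is a scheme of the interval. -/
theorem exists_noLarge_of_interval {a b : L} {φ ψ : List Bool → L} (hS : Scheme φ ψ)
    (hφ : ∀ s, φ s ∈ Icc b a) (hψ : ∀ s, ψ s ∈ Icc b a)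
    (hL : Cardinal.lift.{0} (Cardinal.mk (Icc b a)) < Cardinal.lift covM) :
    ∃ p : Set L, IsFilt p ∧ (∃ x, x ∉ p) ∧ NoLarge p := by
  haveI : IsModularLattice (Icc b a) := by
    refine ⟨fun {x} y {z} hxz => ?_⟩
    exact IsModularLattice.sup_inf_le_assoc_of_le (y : L) (show (x : L) ≤ z from hxz)
  have hS' : Scheme (fun s => (⟨φ s, hφ s⟩ : Icc b a)) (fun s => (⟨ψ s, hψ s⟩ : Icc b a)) := by
    refine ⟨fun s => ?_, fun i s => ?_, fun i s => ?_, fun i s => ?_⟩
    · exact hS.lt s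
    · exact hS.phi_le i s
    · exact hS.psi_le i s
    · exact hS.cap i s
  obtain ⟨p₀, hp₀, h1, h2, h3⟩ := exists_noLarge hS' hL
  have hba : b ≤ a := (hφ []).1.trans (hφ []).2
  have hmem : ∀ x : Icc b a, (x : L) ∈ Subtype.val '' p₀ ↔ x ∈ p₀ := by
    intro x
    constructor
    · rintro ⟨y, hy, hyx⟩
      rwa [← Subtype.ext hyx]
    · intro hx; exact ⟨x, hx, rfl⟩
  obtain ⟨p, hp, -, hb, hno⟩ := extend_noLarge a b hba (Subtype.val '' p₀)
    (by rintro _ ⟨x, -, rfl⟩; exact x.2)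
    ((hmem ⟨a, hba, le_rfl⟩).2 (hp₀.up h1 (hφ []).2))
    (fun h => h2 (hp₀.up ((hmem ⟨b, le_rfl, hba⟩).1 h) (hψ []).1))
    (by
      rintro _ ⟨x, hx, rfl⟩ y hy hxy
      exact (hmem ⟨y, hy⟩).2 (hp₀.up hx hxy))
    (by
      rintro _ ⟨x, hx, rfl⟩ _ ⟨y, hy, rfl⟩
      exact (hmem (x ⊓ y)).2 (hp₀.inf hx hy))
    (by
      intro x hx hx0
      obtain ⟨x₁, x₂, l1, l2, n1, n2, hall⟩ := h3 ⟨x, hx⟩ (fun h => hx0 ((hmem ⟨x, hx⟩).2 h))
      refine ⟨x₁, x₁.2, x₂, x₂.2, l1, l2, fun h => n1 ((hmem x₁).1 h),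
        fun h => n2 ((hmem x₂).1 h), ?_⟩
      rintro _ ⟨σ, hσ, rfl⟩
      exact (hmem ((σ ⊓ x₁) ⊔ (σ ⊓ x₂))).2 (hall σ hσ))
  exact ⟨p, hp, ⟨b, hb⟩, hno⟩

/-- Wide subposets of small intervals give filters without large elements. -/
theorem small_interval_filter {a b : L} {P : Set L}
    (hP : Pool.Agent.Helper10.Width.IsWide P) (hPI : P ⊆ Icc b a)
    (hL : Cardinal.lift.{0} (Cardinal.mk (Icc b a)) < Cardinal.lift covM) :
    ∃ p : Set L, IsFilt p ∧ (∃ x, x ∉ p) ∧ NoLarge p := by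
  obtain ⟨φ, ψ, hS, hφ, hψ⟩ := (isWide_of hP).exists_scheme
  exact exists_noLarge_of_interval hS (fun s => hPI (hφ s)) (fun s => hPI (hψ s)) hL

end lattice

section modules

variable {S : Type u} [Ring S] (T : Set (PP S × PP S))

theorem superdecomposable_of_noLarge {p : Set (ppLattice T)} (hp : IsFilt p)
    (hne : ∃ x, x ∉ p) (hno : NoLarge p) :
    HasSuperdecomposable T := by
  refine exists_superdecomposable_of_filter T (fun x hx y h => hp.up hx h)
    (fun x hx y hy => hp.inf hx hy) hp.nonempty hne ?_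
  intro x hx
  obtain ⟨y, z, h1, h2, h3, h4, h5⟩ := hno x hx
  exact ⟨y, z, h3, h4, h1, h2, h5⟩

/-- The top of the pp lattice. -/
@[reducible] def ppTop : OrderTop (ppLattice T) where
  top := toL T (PP.top S)
  le_top := by
    intro x M
    show x.1 M ≤ (PP.top S).sol M.1
    rw [PP.sol_top]
    exact le_top

theorem aleph0_lt_covM : Cardinal.aleph0 < covM := by
  rw [← not_le]
  intro h
  have hne : {κ | ∃ F : Set (Set (ℕ → ℕ)), Cardinal.mk F = κ ∧ (∀ A ∈ F, IsMeagre A) ∧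
      ⋃₀ F = univ}.Nonempty := by
    refine ⟨_, range (fun x : ℕ → ℕ => ({x} : Set (ℕ → ℕ))), rfl, ?_, ?_⟩
    · rintro _ ⟨x, rfl⟩
      refine IsNowhereDense.isMeagre ?_
      rw [isClosed_singleton.isNowhereDense_iff, interior_eq_empty_iff_dense_compl]
      intro z
      by_cases hz : z = x
      · subst hz
        refine mem_closure_of_tendsto (f := fun n : ℕ => Function.update z n (z n + 1))
          (b := Filter.atTop) ?_ (Filter.Eventually.of_forall fun n h => ?_)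
        · rw [tendsto_pi_nhds]
          intro k
          refine tendsto_const_nhds.congr' ?_
          filter_upwards [Filter.eventually_gt_atTop k] with n hn
          rw [Function.update_of_ne (Nat.ne_of_lt hn)]
        · have h1 := congrFun h n
          simp at h1
      · exact subset_closure hz
    · rw [sUnion_range]
      exact eq_univ_of_forall fun x => mem_iUnion.2 ⟨x, rfl⟩
  obtain ⟨F, hF, hA, hU⟩ := csInf_mem hne
  have hF' : Cardinal.mk F ≤ Cardinal.aleph0 := by rw [hF]; exact h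
  have hc : F.Countable := Cardinal.le_aleph0_iff_set_countable.1 hF'
  have hm : IsMeagre (univ : Set (ℕ → ℕ)) := by
    rw [← hU, sUnion_eq_biUnion]
    exact isMeagre_biUnion hc hA
  exact not_isMeagre_of_isOpen isOpen_univ univ_nonempty hm

theorem mk_PP_le : Cardinal.mk (PP S) ≤ max Cardinal.aleph0 (Cardinal.mk S) := by
  let enc : PP S → (ℕ × ℕ) × List S × List (List S) := fun φ =>
    ((φ.n, φ.k), List.ofFn φ.a, List.ofFn fun i => List.ofFn (φ.b i))
  have henc : Function.Injective enc := by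
    rintro ⟨n, k, a, b⟩ ⟨n', k', a', b'⟩ h
    simp only [enc, Prod.mk.injEq] at h
    obtain ⟨⟨rfl, rfl⟩, h1, h2⟩ := h
    have h3 := List.ofFn_injective h1
    have h4 := List.ofFn_injective h2
    subst h3
    have h5 : b = b' := funext fun i => List.ofFn_injective (congrFun h4 i)
    rw [h5]
  have h1 := Cardinal.mk_le_of_injective (f := enc) henc
  refine h1.trans ?_
  have hS : Cardinal.mk (List S) = max Cardinal.aleph0 (Cardinal.mk S) := Cardinal.mk_list_eq_max S
  have hSS : Cardinal.mk (List (List S)) = max Cardinal.aleph0 (Cardinal.mk S) := by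
    rw [Cardinal.mk_list_eq_max, hS, ← max_assoc, max_self]
  have hinf : Cardinal.aleph0 ≤ max Cardinal.aleph0 (Cardinal.mk S) := le_max_left _ _
  have hN : Cardinal.mk (ℕ × ℕ) = Cardinal.aleph0 := Cardinal.mk_eq_aleph0 _
  simp only [Cardinal.mk_prod, Cardinal.lift_id, hS, hSS, Cardinal.lift_uzero]
  rw [Cardinal.mul_eq_self hinf]
  have h2 : Cardinal.lift.{u} (Cardinal.mk ℕ * Cardinal.mk ℕ) = Cardinal.aleph0 := by
    rw [Cardinal.mk_nat, Cardinal.aleph0_mul_aleph0, Cardinal.lift_aleph0]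
  refine (mul_le_mul_left ?_ _).trans (Cardinal.mul_eq_self hinf).le
  exact (le_of_eq (by simpa using h2)).trans hinf

theorem mk_ppLattice_le : Cardinal.mk (ppLattice T) ≤
    max Cardinal.aleph0 (Cardinal.lift.{u + 1} (Cardinal.mk S)) := by
  have h := Cardinal.mk_le_of_surjective (f := fun x : ULift.{u + 1} (PP S) => toL T x.down)
    (fun x => by
      obtain ⟨φ, hφ⟩ := toL_surjective T x
      exact ⟨⟨φ⟩, hφ⟩)
  refine h.trans ?_
  rw [Cardinal.mk_uLift]
  have h2 := Cardinal.lift_le.{u + 1}.2 (mk_PP_le (S := S))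
  rwa [Cardinal.lift_max, Cardinal.lift_aleph0] at h2

theorem mk_ppLattice_lt (hS : Cardinal.mk S < Cardinal.lift.{u} covM) :
    Cardinal.mk (ppLattice T) < Cardinal.lift.{u + 1} covM := by
  refine (mk_ppLattice_le T).trans_lt (max_lt ?_ ?_)
  · have := Cardinal.lift_lt.{0, u + 1}.2 aleph0_lt_covM
    rwa [Cardinal.lift_aleph0] at this
  · have h2 := Cardinal.lift_lt.{u, u + 1}.2 hS
    rwa [Cardinal.lift_lift] at h2

theorem small_case {P : Set (ppLattice T)} (hP : Pool.Agent.Helper10.Width.IsWide P)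
    {a b : ppLattice T} (hPI : P ⊆ Icc b a)
    (hlt : Cardinal.mk (Icc b a) < Cardinal.lift.{u + 1} covM) : HasSuperdecomposable T := by
  obtain ⟨p, hp, hne, hno⟩ := small_interval_filter hP hPI (by simpa using hlt)
  exact superdecomposable_of_noLarge T hp hne hno

end modules

end Pool.Agent.Helper72.Width
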