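import Mathlib

/-!
# The covering number of the meagre ideal
-/

namespace Pool.Agent.Helper72.Width

open Set

/-- The covering number cov(M) of the meagre ideal: the least cardinality of a family of meagre
subsets of the Baire space `ℕ → ℕ` whose union is the whole space. -/
noncomputable def covM : Cardinal.{0} :=
  sInf {κ | ∃ F : Set (Set (ℕ → ℕ)), Cardinal.mk F = κ ∧ (∀ A ∈ F, IsMeagre A) ∧ ⋃₀ F = univ}

end Pool.Agent.Helper72.Width
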