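import Mathlib
import Pool.Agent.Helper72.Width.CovM

/-!
# Filters without large elements in modular lattices without width
-/

namespace Pool.Agent.Helper72.Width

open Set

/-- A filter of a lattice: a nonempty upward closed set closed under meets. -/
structure IsFilt {L : Type*} [Lattice L] (p : Set L) : Prop where
  nonempty : p.Nonempty
  up : ∀ {a b : L}, a ∈ p → a ≤ b → b ∈ p
  inf : ∀ {a b : L}, a ∈ p → b ∈ p → a ⊓ b ∈ p

/-- The filter `p` has no large element: every `ψ ∉ p` lies below two elements `ψ₁, ψ₂ ∉ p` with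
`(σ ∧ ψ₁) + (σ ∧ ψ₂) ∈ p` for all `σ ∈ p`. -/
def NoLarge {L : Type*} [Lattice L] (p : Set L) : Prop :=
  ∀ ψ : L, ψ ∉ p → ∃ ψ₁ ψ₂ : L, ψ ≤ ψ₁ ∧ ψ ≤ ψ₂ ∧ ψ₁ ∉ p ∧ ψ₂ ∉ p ∧
    ∀ σ ∈ p, (σ ⊓ ψ₁) ⊔ (σ ⊓ ψ₂) ∈ p

/-- Wide subposets of a lattice. -/
def IsWide0 {L : Type*} [Lattice L] (P : Set L) : Prop :=
  (∃ φ ∈ P, ∃ ψ ∈ P, ψ < φ) ∧
  ∀ φ ∈ P, ∀ ψ ∈ P, ψ < φ →
    ∃ θ₁ ∈ P, ∃ θ₂ ∈ P, ψ < θ₁ ∧ θ₁ < φ ∧ ψ < θ₂ ∧ θ₂ < φ ∧ ¬ θ₁ ≤ θ₂ ∧ ¬ θ₂ ≤ θ₁ ∧
      (∃ θ₁₁ ∈ P, ∃ θ₁₂ ∈ P, θ₁₁ ≤ θ₁ ⊔ θ₂ ∧ θ₁ < θ₁₁ ∧ θ₁₂ < θ₁ ∧ θ₁ ⊓ θ₂ ≤ θ₁₂) ∧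
      (∃ θ₂₁ ∈ P, ∃ θ₂₂ ∈ P, θ₂₁ ≤ θ₁ ⊔ θ₂ ∧ θ₂ < θ₂₁ ∧ θ₂₂ < θ₂ ∧ θ₁ ⊓ θ₂ ≤ θ₂₂)

/-- A binary scheme of pairs `φ s > ψ s`. Extensions of the string `s` are the lists `i :: s`. -/
structure Scheme {L : Type*} [Lattice L] (φ ψ : List Bool → L) : Prop where
  lt : ∀ s, ψ s < φ s
  phi_le : ∀ i s, φ (i :: s) ≤ φ s
  psi_le : ∀ i s, ψ s ≤ ψ (i :: s)
  cap : ∀ i s, φ (false :: s) ⊓ φ (true :: s) ≤ ψ (i :: s)

section wide

variable {L : Type*} [Lattice L]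

/-- Wide posets contain schemes. -/
theorem IsWide0.exists_scheme {P : Set L} (h : IsWide0 P) :
    ∃ φ ψ : List Bool → L, Scheme φ ψ ∧ (∀ s, φ s ∈ P) ∧ (∀ s, ψ s ∈ P) := by
  classical
  obtain ⟨⟨φ₀, hφ₀, ψ₀, hψ₀, hlt₀⟩, hw⟩ := h
  let T := {q : L × L // q.1 ∈ P ∧ q.2 ∈ P ∧ q.2 < q.1}
  have hstep : ∀ q : T, ∃ r : Bool → T, (∀ i, (r i).1.1 ≤ q.1.1) ∧ (∀ i, q.1.2 ≤ (r i).1.2) ∧
      ∀ i, (r false).1.1 ⊓ (r true).1.1 ≤ (r i).1.2 := by
    rintro ⟨⟨a, b⟩, ha, hb, hlt⟩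
    obtain ⟨θ₁, h₁, θ₂, h₂, hb1, h1a, hb2, h2a, -, -, ⟨θ₁₁, -, θ₁₂, h12, -, -, h12lt, h12le⟩,
      ⟨θ₂₁, -, θ₂₂, h22, -, -, h22lt, h22le⟩⟩ := hw a ha b hb hlt
    refine ⟨fun i => bif i then ⟨(θ₂, θ₂₂), h₂, h22, h22lt⟩ else ⟨(θ₁, θ₁₂), h₁, h12, h12lt⟩,
      ?_, ?_, ?_⟩
    · rintro (_ | _)
      · exact h1a.le
      · exact h2a.le
    · rintro (_ | _)
      · exact (le_inf hb1.le hb2.le).trans h12le
      · exact (le_inf hb1.le hb2.le).trans h22le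
    · rintro (_ | _)
      · exact h12le
      · exact h22le
  choose r hr1 hr2 hr3 using hstep
  let t : List Bool → T := fun s => List.recOn s (⟨(φ₀, ψ₀), hφ₀, hψ₀, hlt₀⟩ : T)
    (fun i _ q => r q i)
  have ht : ∀ i s, t (i :: s) = r (t s) i := fun i s => rfl
  refine ⟨fun s => (t s).1.1, fun s => (t s).1.2, ⟨fun s => (t s).2.2.2, fun i s => ?_,
    fun i s => ?_, fun i s => ?_⟩, fun s => (t s).2.1, fun s => (t s).2.2.1⟩
  · show (t (i :: s)).1.1 ≤ (t s).1.1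
    rw [ht]; exact hr1 _ _
  · show (t s).1.2 ≤ (t (i :: s)).1.2
    rw [ht]; exact hr2 _ _
  · show (t (false :: s)).1.1 ⊓ (t (true :: s)).1.1 ≤ (t (i :: s)).1.2
    rw [ht, ht, ht]; exact hr3 _ _

end wide

section sys

variable {L : Type*}

theorem mono_suffix {G : List Bool → Set L} (hG : ∀ i s, G s ⊆ G (i :: s)) {s v : List Bool}
    (h : s <:+ v) : G s ⊆ G v := by
  obtain ⟨u, rfl⟩ := h
  induction u with
  | nil => exact Subset.rfl
  | cons i u ih => exact ih.trans (hG i _)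

variable [Lattice L]

/-- Elements which eventually lie in all `G v`, `v` above `s`. -/
def clos (G : List Bool → Set L) (s : List Bool) : Set L :=
  {e | ∃ N, s.length ≤ N ∧ ∀ v, s <:+ v → v.length = N → e ∈ G v}

theorem clos_aux {G : List Bool → Set L} (hG : ∀ i s, G s ⊆ G (i :: s)) {s : List Bool} {e : L}
    {N M : ℕ} (hN : s.length ≤ N) (h : ∀ v, s <:+ v → v.length = N → e ∈ G v) (hNM : N ≤ M) :
    ∀ v, s <:+ v → v.length = M → e ∈ G v := by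
  intro v hv hl
  have h1 : v.drop (M - N) <:+ v := List.drop_suffix _ _
  have h2 : (v.drop (M - N)).length = N := by rw [List.length_drop, hl]; omega
  refine mono_suffix hG h1 (h _ ?_ h2)
  exact List.suffix_of_suffix_length_le hv h1 (by omega)

/-- A system of filters for the scheme `φ, ψ`. -/
structure Sys (φ ψ : List Bool → L) (Z : List Bool → Set L) : Prop where
  filt : ∀ s, IsFilt (Z s)
  split : ∀ s e, (∀ i, e ∈ Z (i :: s)) → e ∈ Z s
  mono : ∀ i s, Z s ⊆ Z (i :: s)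
  phi : ∀ s, φ s ∈ Z s
  psi : ∀ s, ψ s ∉ Z s

theorem clos_sys {φ ψ : List Bool → L} (hS : Scheme φ ψ) {G : List Bool → Set L}
    (hF : ∀ s, IsFilt (G s)) (hG : ∀ i s, G s ⊆ G (i :: s)) (hφ : ∀ s, φ s ∈ G s)
    (hψ : ∀ s, ψ s ∉ G s) : Sys φ ψ (clos G) := by
  have hψm : ∀ {s v : List Bool}, s <:+ v → ψ s ≤ ψ v := by
    rintro s v ⟨u, rfl⟩
    induction u with
    | nil => exact le_rfl
    | cons i u ih => exact ih.trans (hS.psi_le i _)
  refine ⟨fun s => ⟨?_, ?_, ?_⟩, ?_, ?_, ?_, ?_⟩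
  · obtain ⟨e, he⟩ := (hF s).nonempty
    exact ⟨e, s.length, le_rfl, fun v hv _ => mono_suffix hG hv he⟩
  · rintro a b ⟨N, hN, h⟩ hab
    exact ⟨N, hN, fun v hv hl => (hF v).up (h v hv hl) hab⟩
  · rintro a b ⟨N, hN, h⟩ ⟨M, hM, h'⟩
    refine ⟨max N M, hN.trans (le_max_left _ _), fun v hv hl => (hF v).inf ?_ ?_⟩
    · exact clos_aux hG hN h (le_max_left _ _) v hv hl
    · exact clos_aux hG hM h' (le_max_right _ _) v hv hl
  · intro s e he
    obtain ⟨N, hN, h⟩ := he false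
    obtain ⟨M, hM, h'⟩ := he true
    simp only [List.length_cons] at hN hM
    refine ⟨max N M, by have := le_max_left N M; omega, fun v hv hl => ?_⟩
    obtain ⟨u, rfl⟩ := hv
    rcases List.eq_nil_or_concat u with rfl | ⟨u', i, rfl⟩
    · have := le_max_left N M
      simp at hl; omega
    · rw [List.concat_eq_append] at hl ⊢
      have h1 : (i :: s) <:+ (u' ++ [i]) ++ s := ⟨u', by simp⟩
      cases i
      · exact clos_aux hG (by simpa using hN) h (le_max_left _ _) _ h1 (by simpa using hl)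
      · exact clos_aux hG (by simpa using hM) h' (le_max_right _ _) _ h1 (by simpa using hl)
  · rintro i s e ⟨N, hN, h⟩
    refine ⟨max N (s.length + 1), by simp, fun v hv hl => ?_⟩
    refine clos_aux hG hN h (le_max_left _ _) v ((List.suffix_cons i s).trans hv) hl
  · intro s
    exact ⟨s.length, le_rfl, fun v hv _ => mono_suffix hG hv (hφ s)⟩
  · rintro s ⟨N, hN, h⟩
    have h1 : s <:+ List.replicate (N - s.length) false ++ s := ⟨_, rfl⟩
    exact hψ _ ((hF _).up (h _ h1 (by simp; omega)) (hψm h1))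

/-- The initial system. -/
theorem exists_sys {φ ψ : List Bool → L} (hS : Scheme φ ψ) : ∃ Z, Sys φ ψ Z := by
  refine ⟨clos fun v => {e | φ v ≤ e}, clos_sys hS (fun s => ⟨⟨φ s, le_rfl⟩, ?_, ?_⟩) ?_ ?_ ?_⟩
  · intro a b ha hab; exact le_trans ha hab
  · intro a b ha hb; exact le_inf ha hb
  · intro i s e he; exact (hS.phi_le i s).trans he
  · intro s; exact le_rfl
  · intro s h; exact absurd h (hS.lt s).not_ge

/-- A maximal system. -/
theorem exists_max_sys {φ ψ : List Bool → L} (hS : Scheme φ ψ) :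
    ∃ Z, Sys φ ψ Z ∧ ∀ Z', Sys φ ψ Z' → (∀ s, Z s ⊆ Z' s) → ∀ s, Z' s ⊆ Z s := by
  obtain ⟨Z₀, hZ₀⟩ := exists_sys hS
  let S : Set (List Bool → Set L) := {Z | Sys φ ψ Z}
  have hz : ∀ c ⊆ S, IsChain (· ≤ ·) c → ∀ y ∈ c, ∃ ub ∈ S, ∀ z ∈ c, z ≤ ub := by
    intro c hc hchain y hy
    refine ⟨fun s => {e | ∃ Z ∈ c, e ∈ Z s}, ?_, fun Z hZ s e he => ⟨Z, hZ, he⟩⟩
    refine ⟨fun s => ⟨?_, ?_, ?_⟩, ?_, ?_, ?_, ?_⟩
    · obtain ⟨e, he⟩ := ((hc hy).filt s).nonempty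
      exact ⟨e, y, hy, he⟩
    · rintro a b ⟨Z, hZ, ha⟩ hab
      exact ⟨Z, hZ, ((hc hZ).filt s).up ha hab⟩
    · rintro a b ⟨Z, hZ, ha⟩ ⟨Z', hZ', hb⟩
      rcases hchain.total hZ hZ' with h | h
      · exact ⟨Z', hZ', ((hc hZ').filt s).inf (h s ha) hb⟩
      · exact ⟨Z, hZ, ((hc hZ).filt s).inf ha (h s hb)⟩
    · intro s e he
      obtain ⟨Z, hZ, h0⟩ := he false
      obtain ⟨Z', hZ', h1⟩ := he true
      rcases hchain.total hZ hZ' with h | h
      · refine ⟨Z', hZ', (hc hZ').split s e ?_⟩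
        rintro (_ | _)
        · exact h _ h0
        · exact h1
      · refine ⟨Z, hZ, (hc hZ).split s e ?_⟩
        rintro (_ | _)
        · exact h0
        · exact h _ h1
    · rintro i s e ⟨Z, hZ, he⟩
      exact ⟨Z, hZ, (hc hZ).mono i s he⟩
    · intro s; exact ⟨y, hy, (hc hy).phi s⟩
    · rintro s ⟨Z, hZ, h⟩; exact (hc hZ).psi s h
  obtain ⟨Z, -, hZ, hmax⟩ := zorn_le_nonempty₀ S hz Z₀ hZ₀
  exact ⟨Z, hZ, fun Z' hZ' hle => hmax hZ' hle⟩

/-- In a maximal system every element that is not in `Z t` is full at some `v` above `t`. -/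
theorem exists_full {φ ψ : List Bool → L} (hS : Scheme φ ψ) {Z : List Bool → Set L}
    (hZ : Sys φ ψ Z) (hmax : ∀ Z', Sys φ ψ Z' → (∀ s, Z s ⊆ Z' s) → ∀ s, Z' s ⊆ Z s)
    {t : List Bool} {d : L} (hd : d ∉ Z t) : ∃ v, t <:+ v ∧ ∃ k ∈ Z v, d ⊓ k ≤ ψ v := by
  classical
  by_contra hcon
  push Not at hcon
  let G : List Bool → Set L := fun v => if t <:+ v then {e | ∃ k ∈ Z v, d ⊓ k ≤ e} else Z v
  have hG1 : ∀ {v}, t <:+ v → G v = {e | ∃ k ∈ Z v, d ⊓ k ≤ e} := fun h => if_pos h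
  have hG2 : ∀ {v}, ¬ t <:+ v → G v = Z v := fun h => if_neg h
  have hZG : ∀ v, Z v ⊆ G v := by
    intro v e he
    by_cases h : t <:+ v
    · rw [hG1 h]; exact ⟨e, he, inf_le_right⟩
    · rw [hG2 h]; exact he
  have hF : ∀ s, IsFilt (G s) := by
    intro s
    by_cases h : t <:+ s
    · rw [hG1 h]
      refine ⟨?_, ?_, ?_⟩
      · obtain ⟨k, hk⟩ := (hZ.filt s).nonempty
        exact ⟨k, k, hk, inf_le_right⟩
      · rintro a b ⟨k, hk, hka⟩ hab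
        exact ⟨k, hk, hka.trans hab⟩
      · rintro a b ⟨k, hk, hka⟩ ⟨k', hk', hkb⟩
        refine ⟨k ⊓ k', (hZ.filt s).inf hk hk', le_inf ?_ ?_⟩
        · exact le_trans (inf_le_inf_left _ inf_le_left) hka
        · exact le_trans (inf_le_inf_left _ inf_le_right) hkb
    · rw [hG2 h]; exact hZ.filt s
  have hGm : ∀ i s, G s ⊆ G (i :: s) := by
    intro i s
    by_cases h : t <:+ s
    · rw [hG1 h, hG1 (h.trans (List.suffix_cons i s))]
      rintro e ⟨k, hk, hke⟩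
      exact ⟨k, hZ.mono i s hk, hke⟩
    · rw [hG2 h]
      exact (hZ.mono i s).trans (hZG _)
  have hsys := clos_sys hS hF hGm (fun s => hZG s (hZ.phi s)) (by
    intro s hs
    by_cases h : t <:+ s
    · rw [hG1 h] at hs
      obtain ⟨k, hk, hks⟩ := hs
      exact hcon s h k hk hks
    · rw [hG2 h] at hs
      exact hZ.psi s hs)
  have hsub : ∀ s, Z s ⊆ clos G s := fun s e he =>
    ⟨s.length, le_rfl, fun v hv _ => hZG v (mono_suffix hZ.mono hv he)⟩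
  refine hd (hmax _ hsys hsub t ⟨t.length, le_rfl, fun v hv _ => ?_⟩)
  rw [hG1 hv]
  obtain ⟨k, hk⟩ := (hZ.filt v).nonempty
  exact ⟨k, hk, inf_le_left⟩

end sys

section step

variable {L : Type*} [Lattice L]

/-- `d` is full at `w`. -/
def Full (ψ : List Bool → L) (Z : List Bool → Set L) (d : L) (w : List Bool) : Prop :=
  ∃ k ∈ Z w, d ⊓ k ≤ ψ w

/-- refinement of finite lists of strings -/
def Ref (c c' : List (List Bool)) : Prop :=
  (∀ w ∈ c, ∃ w' ∈ c', w <:+ w') ∧ (∀ w' ∈ c', ∃ w ∈ c, w <:+ w')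

theorem Ref.refl (c : List (List Bool)) : Ref c c :=
  ⟨fun w hw => ⟨w, hw, List.suffix_rfl⟩, fun w hw => ⟨w, hw, List.suffix_rfl⟩⟩

theorem Ref.trans {a b c : List (List Bool)} (h : Ref a b) (h' : Ref b c) : Ref a c := by
  constructor
  · intro w hw
    obtain ⟨w', hw', h1⟩ := h.1 w hw
    obtain ⟨w'', hw'', h2⟩ := h'.1 w' hw'
    exact ⟨w'', hw'', h1.trans h2⟩
  · intro w hw
    obtain ⟨w', hw', h1⟩ := h'.2 w hw
    obtain ⟨w'', hw'', h2⟩ := h.2 w' hw'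
    exact ⟨w'', hw'', h2.trans h1⟩

theorem Ref.cons {c c' : List (List Bool)} (h : Ref c c') {w w' : List Bool} (hw : w <:+ w') :
    Ref (w :: c) (w' :: c') := by
  constructor
  · rintro x hx
    rcases List.mem_cons.1 hx with rfl | hx
    · exact ⟨w', List.mem_cons_self, hw⟩
    · obtain ⟨y, hy, hxy⟩ := h.1 x hx
      exact ⟨y, List.mem_cons_of_mem _ hy, hxy⟩
  · rintro x hx
    rcases List.mem_cons.1 hx with rfl | hx
    · exact ⟨w, List.mem_cons_self, hw⟩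
    · obtain ⟨y, hy, hxy⟩ := h.2 x hx
      exact ⟨y, List.mem_cons_of_mem _ hy, hxy⟩

theorem Ref.swap (c : List (List Bool)) (a b : List Bool) : Ref (a :: b :: c) (b :: a :: c) := by
  have : ∀ x, x ∈ a :: b :: c ↔ x ∈ b :: a :: c := by
    intro x; simp only [List.mem_cons]; tauto
  exact ⟨fun x hx => ⟨x, (this x).1 hx, List.suffix_rfl⟩,
    fun x hx => ⟨x, (this x).2 hx, List.suffix_rfl⟩⟩

theorem Ref.split (c : List (List Bool)) (w : List Bool) :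
    Ref (w :: c) ((false :: w) :: (true :: w) :: c) := by
  constructor
  · rintro x hx
    rcases List.mem_cons.1 hx with rfl | hx
    · exact ⟨false :: x, by simp, List.suffix_cons _ _⟩
    · exact ⟨x, by simp [hx], List.suffix_rfl⟩
  · rintro x hx
    rcases List.mem_cons.1 hx with rfl | hx
    · exact ⟨w, by simp, List.suffix_cons _ _⟩
    rcases List.mem_cons.1 hx with rfl | hx
    · exact ⟨w, by simp, List.suffix_cons _ _⟩
    · exact ⟨x, by simp [hx], List.suffix_rfl⟩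

variable {φ ψ : List Bool → L} {Z : List Bool → Set L}

theorem Full.not_mem (hZ : Sys φ ψ Z) {d : L} {w : List Bool} (h : Full ψ Z d w) : d ∉ Z w := by
  intro hd
  obtain ⟨k, hk, hle⟩ := h
  exact hZ.psi w ((hZ.filt w).up ((hZ.filt w).inf hd hk) hle)

theorem psi_mono (hS : Scheme φ ψ) {s v : List Bool} (h : s <:+ v) : ψ s ≤ ψ v := by
  obtain ⟨u, rfl⟩ := h
  induction u with
  | nil => exact le_rfl
  | cons i u ih => exact ih.trans (hS.psi_le i _)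

theorem Full.mono (hS : Scheme φ ψ) (hZ : Sys φ ψ Z) {d : L} {w v : List Bool}
    (h : Full ψ Z d w) (hv : w <:+ v) : Full ψ Z d v := by
  obtain ⟨k, hk, hle⟩ := h
  exact ⟨k, mono_suffix hZ.mono hv hk, hle.trans (psi_mono hS hv)⟩

/-- Splitting a full leaf. -/
theorem Full.split [IsModularLattice L] (hS : Scheme φ ψ) (hZ : Sys φ ψ Z) {d : L}
    {w : List Bool} (h : Full ψ Z d w) (i : Bool) :
    ∃ e, d ≤ e ∧ e ∈ Z (i :: w) ∧ Full ψ Z e ((!i) :: w) := by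
  obtain ⟨k, hk, hle⟩ := h
  refine ⟨d ⊔ (k ⊓ φ (i :: w)), le_sup_left, ?_, k ⊓ φ ((!i) :: w), ?_, ?_⟩
  · exact (hZ.filt _).up ((hZ.filt _).inf (hZ.mono i w hk) (hZ.phi _)) le_sup_right
  · exact (hZ.filt _).inf (hZ.mono _ w hk) (hZ.phi _)
  · have h1 : (d ⊔ (k ⊓ φ (i :: w))) ⊓ k ≤ φ (i :: w) := by
      have : (k ⊓ φ (i :: w)) ⊔ d ⊓ k = (k ⊓ φ (i :: w) ⊔ d) ⊓ k := by
        rw [sup_inf_assoc_of_le _ inf_le_left]
      rw [sup_comm, ← this]
      refine sup_le inf_le_right (hle.trans ?_)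
      exact (hS.psi_le i w).trans (hS.lt _).le
    have h2 : (d ⊔ (k ⊓ φ (i :: w))) ⊓ (k ⊓ φ ((!i) :: w)) ≤ φ (i :: w) ⊓ φ ((!i) :: w) := by
      refine le_inf ?_ (inf_le_right.trans inf_le_right)
      exact (inf_le_inf_left _ inf_le_left).trans h1
    refine h2.trans ?_
    cases i
    · exact hS.cap true w
    · rw [inf_comm]; exact hS.cap false w

/-- Any element can be refined to be full at exactly one leaf. -/
theorem one_leaf [IsModularLattice L] (hS : Scheme φ ψ) (hZ : Sys φ ψ Z)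
    (hfull : ∀ t d, d ∉ Z t → ∃ v, t <:+ v ∧ Full ψ Z d v) (d : L) :
    ∀ c : List (List Bool), (∃ c', Ref c c' ∧ ∀ w ∈ c', d ∈ Z w) ∨
      ∃ e, d ≤ e ∧ ∃ v l, Ref c (v :: l) ∧ Full ψ Z e v ∧ ∀ w ∈ l, e ∈ Z w := by
  intro c
  induction c with
  | nil => exact Or.inl ⟨[], Ref.refl _, by simp⟩
  | cons w c ih =>
    rcases ih with ⟨c', hc', h0⟩ | ⟨e, hde, v, l, hc, hev, hl⟩
    · by_cases hd : d ∈ Z w
      · refine Or.inl ⟨w :: c', hc'.cons List.suffix_rfl, ?_⟩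
        intro x hx
        rcases List.mem_cons.1 hx with rfl | hx
        · exact hd
        · exact h0 x hx
      · obtain ⟨v, hv, hf⟩ := hfull w d hd
        exact Or.inr ⟨d, le_rfl, v, c', hc'.cons hv, hf, h0⟩
    · right
      by_cases he : e ∈ Z w
      · refine ⟨e, hde, v, w :: l, (hc.cons (List.suffix_rfl (l := w))).trans (Ref.swap _ _ _),
          hev, ?_⟩
        intro x hx
        rcases List.mem_cons.1 hx with rfl | hx
        · exact he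
        · exact hl x hx
      · obtain ⟨w', hw', hf⟩ := hfull w e he
        obtain ⟨e₁, hee, h1, h2⟩ := hf.split hS hZ true
        by_cases h3 : e₁ ∈ Z v
        · refine ⟨e₁, hde.trans hee, false :: w', v :: l,
            hc.cons (hw'.trans (List.suffix_cons _ _)), h2, ?_⟩
          intro x hx
          rcases List.mem_cons.1 hx with rfl | hx
          · exact h3
          · exact (hZ.filt _).up (hl x hx) hee
        · obtain ⟨v', hv', hf'⟩ := hfull v e₁ h3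
          refine ⟨e₁, hde.trans hee, v', (true :: w') :: l, ?_, hf', ?_⟩
          · refine Ref.trans (b := (true :: w') :: v' :: l) ?_ (Ref.swap _ _ _)
            refine Ref.cons (hc.trans ((Ref.refl l).cons hv')) ?_
            exact hw'.trans (List.suffix_cons _ _)
          · intro x hx
            rcases List.mem_cons.1 hx with rfl | hx
            · exact h1
            · exact (hZ.filt _).up (hl x hx) hee

/-- The finite list `c` decides the element `d`. -/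
def Good (ψ : List Bool → L) (Z : List Bool → Set L) (d : L) (c : List (List Bool)) : Prop :=
  (∀ w ∈ c, d ∈ Z w) ∨ ∃ e e', d ≤ e ∧ d ≤ e' ∧ (∀ w ∈ c, e ∈ Z w ∨ e' ∈ Z w) ∧
    (∃ w ∈ c, Full ψ Z e w) ∧ (∃ w ∈ c, Full ψ Z e' w)

theorem exists_good [IsModularLattice L] (hS : Scheme φ ψ) (hZ : Sys φ ψ Z)
    (hfull : ∀ t d, d ∉ Z t → ∃ v, t <:+ v ∧ Full ψ Z d v) (d : L) (c : List (List Bool)) :
    ∃ c', Ref c c' ∧ Good ψ Z d c' := by
  rcases one_leaf hS hZ hfull d c with ⟨c', hc', h0⟩ | ⟨e, hde, v, l, hc, hev, hl⟩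
  · exact ⟨c', hc', Or.inl h0⟩
  · obtain ⟨e₁, hee₁, h1, h2⟩ := hev.split hS hZ true
    obtain ⟨e₂, hee₂, h3, h4⟩ := hev.split hS hZ false
    refine ⟨(false :: v) :: (true :: v) :: l, hc.trans (Ref.split _ _), Or.inr
      ⟨e₁, e₂, hde.trans hee₁, hde.trans hee₂, ?_, ⟨false :: v, by simp, h2⟩,
        ⟨true :: v, by simp, h4⟩⟩⟩
    intro x hx
    rcases List.mem_cons.1 hx with rfl | hx
    · exact Or.inr h3
    rcases List.mem_cons.1 hx with rfl | hx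
    · exact Or.inl h1
    · exact Or.inl ((hZ.filt _).up (hl x hx) hee₁)

/-- A decreasing sequence of conditions deciding every element gives a filter without large
elements. -/
theorem noLarge_of_seq (hS : Scheme φ ψ) (hZ : Sys φ ψ Z) (c : ℕ → List (List Bool))
    (h0 : c 0 = [[]]) (hc : ∀ n, Ref (c n) (c (n + 1))) (hgood : ∀ d, ∃ n, Good ψ Z d (c n)) :
    ∃ p : Set L, IsFilt p ∧ φ [] ∈ p ∧ ψ [] ∉ p ∧ NoLarge p := by
  have hmono : ∀ {n m : ℕ}, n ≤ m → Ref (c n) (c m) := by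
    intro n m h
    induction h with
    | refl => exact Ref.refl _
    | step _ ih => exact ih.trans (hc _)
  have hup : ∀ {n m : ℕ} {e : L}, n ≤ m → (∀ w ∈ c n, e ∈ Z w) → ∀ w ∈ c m, e ∈ Z w := by
    intro n m e h he w hw
    obtain ⟨v, hv, hvw⟩ := (hmono h).2 w hw
    exact mono_suffix hZ.mono hvw (he v hv)
  have hne : ∀ n, ∃ w, w ∈ c n := by
    intro n
    obtain ⟨w, hw, -⟩ := (hmono (Nat.zero_le n)).1 [] (by rw [h0]; simp)
    exact ⟨w, hw⟩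
  let p : Set L := {e | ∃ n, ∀ w ∈ c n, e ∈ Z w}
  have hp : IsFilt p := by
    refine ⟨⟨φ [], 0, ?_⟩, ?_, ?_⟩
    · intro w hw; rw [h0] at hw; rw [List.mem_singleton.1 hw]; exact hZ.phi _
    · rintro a b ⟨n, hn⟩ hab
      exact ⟨n, fun w hw => (hZ.filt w).up (hn w hw) hab⟩
    · rintro a b ⟨n, hn⟩ ⟨m, hm⟩
      exact ⟨max n m, fun w hw => (hZ.filt w).inf (hup (le_max_left _ _) hn w hw)
        (hup (le_max_right _ _) hm w hw)⟩
  have hfull : ∀ {e : L} {n : ℕ} {w : List Bool}, w ∈ c n → Full ψ Z e w → e ∉ p := by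
    rintro e n w hw hf ⟨m, hm⟩
    obtain ⟨v, hv, hwv⟩ := (hmono (le_max_left n m)).1 w hw
    exact (hf.mono hS hZ hwv).not_mem hZ (hup (le_max_right n m) hm v hv)
  refine ⟨p, hp, ⟨0, ?_⟩, ?_, ?_⟩
  · intro w hw; rw [h0] at hw; rw [List.mem_singleton.1 hw]; exact hZ.phi _
  · rintro ⟨n, hn⟩
    obtain ⟨w, hw⟩ := hne n
    exact hZ.psi w ((hZ.filt w).up (hn w hw) (psi_mono hS (List.nil_suffix)))
  · intro d hd
    obtain ⟨n, hg⟩ := hgood d
    rcases hg with hg | ⟨e, e', hde, hde', hor, ⟨w, hw, hf⟩, ⟨w', hw', hf'⟩⟩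
    · exact absurd ⟨n, hg⟩ hd
    · refine ⟨e, e', hde, hde', hfull hw hf, hfull hw' hf', ?_⟩
      rintro σ ⟨m, hm⟩
      refine ⟨max n m, fun v hv => ?_⟩
      have hσ := hup (le_max_right n m) hm v hv
      obtain ⟨u, hu, huv⟩ := (hmono (le_max_left n m)).2 v hv
      rcases hor u hu with h | h
      · exact (hZ.filt v).up ((hZ.filt v).inf hσ (mono_suffix hZ.mono huv h)) le_sup_left
      · exact (hZ.filt v).up ((hZ.filt v).inf hσ (mono_suffix hZ.mono huv h)) le_sup_right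

end step

section generic

theorem exists_notMem_of_lt_covM {ι : Type*} (A : ι → Set (ℕ → ℕ)) (hA : ∀ i, IsMeagre (A i))
    (hι : Cardinal.lift.{0} (Cardinal.mk ι) < Cardinal.lift covM) : ∃ x, ∀ i, x ∉ A i := by
  by_contra hcon
  push Not at hcon
  have h1 : covM ≤ Cardinal.mk (range A) := by
    refine csInf_le' ⟨range A, rfl, ?_, ?_⟩
    · rintro _ ⟨i, rfl⟩; exact hA i
    · rw [sUnion_range]; exact eq_univ_of_forall fun x => mem_iUnion.2 (hcon x)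
  have h2 : Cardinal.lift (Cardinal.mk (range A)) ≤ Cardinal.lift.{0} (Cardinal.mk ι) :=
    Cardinal.mk_range_le_lift
  exact absurd (lt_of_le_of_lt h2 hι) (not_lt.2 (Cardinal.lift_le.2 h1))

end generic

section generic2

theorem exists_seq {Q : Type*} [Encodable Q] (R : Q → Q → Prop) (hr : ∀ c, R c c) (c₀ : Q)
    {ι : Type*} (D : ι → Set Q) (hD : ∀ i c, ∃ c', R c c' ∧ c' ∈ D i)
    (hι : Cardinal.lift.{0} (Cardinal.mk ι) < Cardinal.lift covM) :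
    ∃ c : ℕ → Q, c 0 = c₀ ∧ (∀ n, R (c n) (c (n + 1))) ∧ ∀ i, ∃ n, c n ∈ D i := by
  classical
  let F : Q → ℕ → Q := fun q m => match Encodable.decode (α := Q) m with
    | some q' => if R q q' then q' else q
    | none => q
  have hF1 : ∀ q m, R q (F q m) := by
    intro q m
    show R q (match Encodable.decode (α := Q) m with
      | some q' => if R q q' then q' else q
      | none => q)
    split
    · split_ifs with h
      · exact h
      · exact hr q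
    · exact hr q
  have hF2 : ∀ q q', R q q' → F q (Encodable.encode q') = q' := by
    intro q q' h
    show (match Encodable.decode (α := Q) (Encodable.encode q') with
      | some q' => if R q q' then q' else q
      | none => q) = q'
    rw [Encodable.encodek]
    simp [h]
  let c : (ℕ → ℕ) → ℕ → Q := fun x n => Nat.rec c₀ (fun k q => F q (x k)) n
  have hc0 : ∀ x, c x 0 = c₀ := fun x => rfl
  have hcs : ∀ x n, c x (n + 1) = F (c x n) (x n) := fun x n => rfl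
  have hcongr : ∀ (x y : ℕ → ℕ) n, (∀ k < n, x k = y k) → c x n = c y n := by
    intro x y n
    induction n with
    | zero => intro _; rfl
    | succ n ih =>
      intro h
      rw [hcs, hcs, ih (fun k hk => h k (by omega)), h n (by omega)]
  let A : ι → Set (ℕ → ℕ) := fun i => {x | ∀ n, c x n ∉ D i}
  have hA : ∀ i, IsMeagre (A i) := by
    intro i
    letI : TopologicalSpace Q := ⊥
    haveI : DiscreteTopology Q := ⟨rfl⟩
    have hcont : ∀ n, Continuous fun x => c x n := by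
      intro n
      induction n with
      | zero => exact continuous_const
      | succ n ih =>
        have h1 : Continuous fun x : ℕ → ℕ => (c x n, x n) := ih.prodMk (continuous_apply n)
        have h2 : Continuous fun q : Q × ℕ => F q.1 q.2 := continuous_of_discreteTopology
        exact h2.comp h1
    have hopen : IsOpen (A i)ᶜ := by
      have : (A i)ᶜ = ⋃ n, (fun x => c x n) ⁻¹' (D i) := by
        ext x; simp [A]
      rw [this]
      exact isOpen_iUnion fun n => (isOpen_discrete (D i)).preimage (hcont n)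
    have hdense : Dense (A i)ᶜ := by
      intro x
      choose c' hc' using fun n => hD i (c x n)
      let y : ℕ → ℕ → ℕ := fun n k => if k < n then x k else Encodable.encode (c' n)
      have hy : ∀ n, y n ∈ (A i)ᶜ := by
        intro n h
        refine h (n + 1) ?_
        rw [hcs, hcongr (y n) x n (fun k hk => if_pos hk)]
        have : y n n = Encodable.encode (c' n) := if_neg (lt_irrefl n)
        rw [this, hF2 _ _ (hc' n).1]
        exact (hc' n).2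
      refine mem_closure_of_tendsto (f := y) (b := Filter.atTop) ?_ (Filter.Eventually.of_forall hy)
      rw [tendsto_pi_nhds]
      intro k
      refine tendsto_const_nhds.congr' ?_
      filter_upwards [Filter.eventually_gt_atTop k] with n hn
      exact (if_pos hn).symm
    exact residual_of_dense_open hopen hdense
  obtain ⟨x, hx⟩ := exists_notMem_of_lt_covM A hA hι
  refine ⟨c x, hc0 x, fun n => ?_, fun i => ?_⟩
  · rw [hcs]; exact hF1 _ _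
  · have := hx i
    simpa [A] using this

/-- Small modular lattices with a wide subposet have filters without large elements. -/
theorem exists_noLarge {L : Type*} [Lattice L] [IsModularLattice L] {φ ψ : List Bool → L}
    (hS : Scheme φ ψ) (hL : Cardinal.lift.{0} (Cardinal.mk L) < Cardinal.lift covM) :
    ∃ p : Set L, IsFilt p ∧ φ [] ∈ p ∧ ψ [] ∉ p ∧ NoLarge p := by
  obtain ⟨Z, hZ, hmax⟩ := exists_max_sys hS
  have hfull : ∀ t d, d ∉ Z t → ∃ v, t <:+ v ∧ Full ψ Z d v := fun t d hd =>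
    exists_full hS hZ hmax hd
  obtain ⟨c, h0, hc, hg⟩ := exists_seq Ref Ref.refl [[]] (fun d : L => {c | Good ψ Z d c})
    (fun d c => exists_good hS hZ hfull d c) hL
  exact noLarge_of_seq hS hZ c h0 hc hg

/-- Extending filters without large elements from an interval. -/
theorem extend_noLarge {L : Type*} [Lattice L] [IsModularLattice L] (a b : L) (hba : b ≤ a)
    (p₀ : Set L) (_hp₀ : p₀ ⊆ Icc b a) (ha : a ∈ p₀) (hb : b ∉ p₀)
    (hup : ∀ x ∈ p₀, ∀ y ∈ Icc b a, x ≤ y → y ∈ p₀)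
    (hinf : ∀ x ∈ p₀, ∀ y ∈ p₀, x ⊓ y ∈ p₀)
    (hno : ∀ x ∈ Icc b a, x ∉ p₀ → ∃ x₁ ∈ Icc b a, ∃ x₂ ∈ Icc b a, x ≤ x₁ ∧ x ≤ x₂ ∧ x₁ ∉ p₀ ∧
      x₂ ∉ p₀ ∧ ∀ σ ∈ p₀, (σ ⊓ x₁) ⊔ (σ ⊓ x₂) ∈ p₀) :
    ∃ p : Set L, IsFilt p ∧ a ∈ p ∧ b ∉ p ∧ NoLarge p := by
  let S : Set (Set L) := {p | IsFilt p ∧ p₀ ⊆ p ∧ p ∩ Icc b a ⊆ p₀}
  have hS₀ : {e | ∃ x ∈ p₀, x ≤ e} ∈ S := by
    refine ⟨⟨⟨a, a, ha, le_rfl⟩, ?_, ?_⟩, fun x hx => ⟨x, hx, le_rfl⟩, ?_⟩
    · rintro x y ⟨z, hz, hzx⟩ hxy; exact ⟨z, hz, hzx.trans hxy⟩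
    · rintro x y ⟨z, hz, hzx⟩ ⟨w, hw, hwy⟩
      exact ⟨z ⊓ w, hinf z hz w hw, inf_le_inf hzx hwy⟩
    · rintro x ⟨⟨z, hz, hzx⟩, hx⟩
      exact hup z hz x hx hzx
  obtain ⟨p, -, hpS, hmax⟩ := zorn_subset_nonempty S (by
    intro c hc hchain hne
    refine ⟨⋃₀ c, ⟨⟨?_, ?_, ?_⟩, ?_, ?_⟩, fun s hs => subset_sUnion_of_mem hs⟩
    · obtain ⟨y, hy⟩ := hne
      obtain ⟨e, he⟩ := (hc hy).1.nonempty
      exact ⟨e, y, hy, he⟩
    · rintro x y ⟨s, hs, hx⟩ hxy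
      exact ⟨s, hs, (hc hs).1.up hx hxy⟩
    · rintro x y ⟨s, hs, hx⟩ ⟨t, ht, hy⟩
      rcases hchain.total hs ht with h | h
      · exact ⟨t, ht, (hc ht).1.inf (h hx) hy⟩
      · exact ⟨s, hs, (hc hs).1.inf hx (h hy)⟩
    · obtain ⟨y, hy⟩ := hne
      exact (hc hy).2.1.trans (subset_sUnion_of_mem hy)
    · rintro x ⟨⟨s, hs, hx⟩, hx'⟩
      exact (hc hs).2.2 ⟨hx, hx'⟩) _ hS₀
  obtain ⟨hp, hp1, hp2⟩ := hpS
  refine ⟨p, hp, hp1 ha, fun h => hb (hp2 ⟨h, le_rfl, hba⟩), ?_⟩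
  intro d hd
  -- maximality
  have hex : ∃ σ ∈ p, ∃ x ∈ Icc b a, x ∉ p₀ ∧ σ ⊓ d ≤ x := by
    by_contra hcon
    push Not at hcon
    have hq : {e | ∃ σ ∈ p, σ ⊓ d ≤ e} ∈ S := by
      refine ⟨⟨?_, ?_, ?_⟩, ?_, ?_⟩
      · obtain ⟨σ, hσ⟩ := hp.nonempty
        exact ⟨σ, σ, hσ, inf_le_left⟩
      · rintro x y ⟨z, hz, hzx⟩ hxy; exact ⟨z, hz, hzx.trans hxy⟩
      · rintro x y ⟨z, hz, hzx⟩ ⟨w, hw, hwy⟩
        exact ⟨z ⊓ w, hp.inf hz hw, le_inf ((inf_le_inf_right _ inf_le_left).trans hzx)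
          ((inf_le_inf_right _ inf_le_right).trans hwy)⟩
      · exact fun x hx => ⟨x, hp1 hx, inf_le_left⟩
      · rintro x ⟨⟨σ, hσ, hle⟩, hx⟩
        by_contra hx0
        exact hcon σ hσ x hx hx0 hle
    have hle := hmax hq (fun e he => ⟨e, he, inf_le_left⟩)
    obtain ⟨σ, hσ⟩ := hp.nonempty
    exact hd (hle ⟨σ, hσ, inf_le_right⟩)
  obtain ⟨σ, hσ, x, hx, hx0, hle⟩ := hex
  obtain ⟨x₁, hx1, x₂, hx2, hxx1, hxx2, h1, h2, hall⟩ := hno x hx hx0
  have hσ' : σ ⊓ a ∈ p := hp.inf hσ (hp1 ha)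
  have key : ∀ y ∈ Icc b a, y ∉ p₀ → x ≤ y → d ⊔ (σ ⊓ a ⊓ y) ∉ p := by
    intro y hy hy0 hxy hmem
    have h3 : (d ⊔ (σ ⊓ a ⊓ y)) ⊓ (σ ⊓ a) ∈ p := hp.inf hmem hσ'
    have h4 : (d ⊔ (σ ⊓ a ⊓ y)) ⊓ (σ ⊓ a) ≤ y := by
      rw [sup_comm, sup_inf_assoc_of_le _ inf_le_left]
      refine sup_le inf_le_right (le_trans ?_ hxy)
      refine le_trans ?_ hle
      rw [inf_comm]
      exact inf_le_inf_right _ inf_le_left
    exact hy0 (hp2 ⟨hp.up h3 h4, hy⟩)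
  refine ⟨d ⊔ (σ ⊓ a ⊓ x₁), d ⊔ (σ ⊓ a ⊓ x₂), le_sup_left, le_sup_left, key x₁ hx1 h1 hxx1,
    key x₂ hx2 h2 hxx2, ?_⟩
  intro τ hτ
  -- τ' = τ ⊓ σ ⊓ a
  have hτ' : τ ⊓ (σ ⊓ a) ∈ p := hp.inf hτ hσ'
  have hτb : (τ ⊓ (σ ⊓ a)) ⊔ b ∈ p₀ := by
    refine hp2 ⟨hp.up hτ' le_sup_left, le_sup_right, sup_le ?_ hba⟩
    exact inf_le_right.trans inf_le_right
  have h5 := hp1 (hall _ hτb)
  have e1 : ((τ ⊓ (σ ⊓ a)) ⊔ b) ⊓ x₁ = ((τ ⊓ (σ ⊓ a)) ⊓ x₁) ⊔ b := by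
    rw [sup_comm, sup_inf_assoc_of_le _ hx1.1, sup_comm]
  have e2 : ((τ ⊓ (σ ⊓ a)) ⊔ b) ⊓ x₂ = ((τ ⊓ (σ ⊓ a)) ⊓ x₂) ⊔ b := by
    rw [sup_comm, sup_inf_assoc_of_le _ hx2.1, sup_comm]
  rw [e1, e2] at h5
  have h6 := hp.inf h5 hτ'
  refine hp.up h6 ?_
  set τ' := τ ⊓ (σ ⊓ a) with hτ'def
  have h7 : (τ' ⊓ x₁ ⊔ b ⊔ (τ' ⊓ x₂ ⊔ b)) ⊓ τ' ≤ (τ' ⊓ x₁) ⊔ (τ' ⊓ x₂) := by
    have h8 : τ' ⊓ x₁ ⊔ b ⊔ (τ' ⊓ x₂ ⊔ b) = (τ' ⊓ x₁ ⊔ τ' ⊓ x₂) ⊔ b := by
      rw [sup_sup_sup_comm, sup_idem]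
    rw [h8, sup_inf_assoc_of_le _ (sup_le inf_le_left inf_le_left)]
    refine sup_le le_rfl (le_sup_of_le_left ?_)
    rw [inf_comm]
    exact inf_le_inf_left _ hx1.1
  refine h7.trans (sup_le_sup ?_ ?_)
  · refine le_inf (inf_le_left.trans inf_le_left) (le_trans ?_ le_sup_right)
    exact le_inf (inf_le_left.trans inf_le_right) inf_le_right
  · refine le_inf (inf_le_left.trans inf_le_left) (le_trans ?_ le_sup_right)
    exact le_inf (inf_le_left.trans inf_le_right) inf_le_right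

end generic2

end Pool.Agent.Helper72.Width
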